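import Mathlib
import Pool.Agent.H317.GI.Stm
import Pool.Agent.H317.GR.Main

/-! # Project GI, part EMU (helper260 for helper317) -/

set_option autoImplicit false

namespace Pool.Agent.H260.GI

open Matrix Module Pool.Agent.H317.GR Pool.Agent.H317.GH Pool.Agent.H317.GI

theorem emu : S_GDT → S_TRZ → S_SIGK → S_RK1 → S_EMB → S_EMU := by
  intro hGDT hTRZ hSIGK hRK1 hEMB Λ _ hG
  obtain ⟨f, ρ, hfs, hfc, hρk, hρd, hρi, hres⟩ := hGDT 3 le_rfl Λ hG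
  have hfg : Group.FG Λ := hG.1
  have h1 : QLE Λ (SZ 3) := fun Q _ _ h => (hG.2.2 Q).1 h
  have h2 : QLE (SZ 3) Λ := fun Q _ _ h => (hG.2.2 Q).2 h
  obtain ⟨ψ, hψ⟩ := hTRZ 3 le_rfl Λ h1 h2 (fun p hp => ρ p) (fun p hp => hρd p)
  have h2p : Fact (Nat.Prime 2) := ⟨Nat.prime_two⟩
  obtain ⟨ψ', hψ'⟩ : ∃ ψ' : Λ → ℤ, ∀ g, (ρ 2 g).val.trace = (ψ' g : ℤ_[2]) := by
    rcases hψ 2 with h | h
    · exact ⟨ψ, h⟩
    · exact ⟨fun g => ψ g⁻¹, h⟩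
  refine ⟨ρ 2, ψ', hρi 2, hψ', fun t ht h3 => ?_⟩
  have hA0 : (GeneralLinearGroup.map (algebraMap ℚ_[2] (AlgebraicClosure ℚ_[2]))
      (toQ 3 2 (ρ 2 t))).val - 1 ≠ 0 := by
    intro h
    have h4 : (GeneralLinearGroup.map (algebraMap ℚ_[2] (AlgebraicClosure ℚ_[2]))
        (toQ 3 2 (ρ 2 t))).val = 1 := sub_eq_zero.1 h
    have h5 : GeneralLinearGroup.map (algebraMap ℚ_[2] (AlgebraicClosure ℚ_[2]))
        (toQ 3 2 (ρ 2 t)) = 1 := Units.ext h4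
    have h6 : toQ 3 2 (ρ 2 t) = 1 := by
      apply glmap_inj 3 ℚ_[2] (AlgebraicClosure ℚ_[2]) (algebraMap ℚ_[2] (AlgebraicClosure ℚ_[2]))
      rw [map_one]
      exact h5
    have h7 : ρ 2 t = 1 := by
      apply toQ_inj 3 2
      rw [map_one]
      exact h6
    apply ht
    apply hρi 2
    rw [map_one]
    exact h7
  have hA3 : ((GeneralLinearGroup.map (algebraMap ℚ_[2] (AlgebraicClosure ℚ_[2]))
      (toQ 3 2 (ρ 2 t))).val - 1) ^ 3 = 0 := by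
    let j : ℤ_[2] →+* AlgebraicClosure ℚ_[2] :=
      (algebraMap ℚ_[2] (AlgebraicClosure ℚ_[2])).comp (algebraMap ℤ_[2] ℚ_[2])
    have h4 : (GeneralLinearGroup.map (algebraMap ℚ_[2] (AlgebraicClosure ℚ_[2]))
        (toQ 3 2 (ρ 2 t))).val = j.mapMatrix (ρ 2 t).val := by
      ext a b
      rfl
    rw [h4, ← map_one j.mapMatrix, ← map_sub, ← map_pow, h3, map_zero]
  obtain ⟨k, v, φ, hv, hφ, hk⟩ := hRK1 (AlgebraicClosure ℚ_[2]) _ hA0 hA3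
  obtain ⟨σ, P, hσ, hP⟩ := hSIGK 3 le_rfl Λ f hfc (fun p hp => ρ p) (fun p hp => hρk p)
    (fun p hp => hρd p) ψ (fun p hp => hψ p) t k v φ hv hφ hk
  have hinj : Function.Injective σ := by
    rw [injective_iff_map_eq_one]
    intro g hg
    apply hres
    intro M hM
    rw [← hσ M hM g, hg, map_one]
  exact ⟨σ, P, hinj, hEMB 3 le_rfl Λ f σ hfs hσ, hP⟩

end Pool.Agent.H260.GI
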